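import Pool.Agent.N178.Ss4

/-!
# Algebraic cycles on the open subvarieties of `X × X` and semisimplicity of Frobenius

Let `X` be a smooth projective variety over a finite field, `d = dim X`. There is an open subvariety
`U₀` of `X × X`, whose complement has codimension at least `d`, such that the surjectivity of the
cycle class map in codimension `d` for `U₀` (over all finite extensions of the ground field) implies
the one for `X × X` and the semisimplicity of Frobenius on `H^i(X)` for all `i`. Conversely the
surjectivity for `X × X` and the semisimplicity of Frobenius on all `H^i(X)` imply the surjectivity for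
all open subvarieties of `X × X` whose complement has codimension at least `d`. Both statements are
equivalent to the surjectivity for `X × X` together with the equality of numerical and homological
equivalence in codimension `d` on `X × X` (the injectivity of the cycle class map modulo numerical
equivalence).

`G : SquareAction W X` is an abelian group acting on the cohomology of `X` and of `X × X` like the
Galois group of the finite ground field.
-/

open CategoryTheory AlgebraicGeometry

universe u v w

namespace Pool.Agent.Results.MP_81632f_ag.OpenTateSemisimplicity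

open Pool.Agent.H914 Pool.Agent.H914.VarClass Pool.Agent.H914.VarClass.Obj
  Pool.Agent.H914.WeilCohomology Pool.Agent.R936 Pool.Agent.H447 Pool.Agent.N178.Ss

theorem result {k : Type u} [Field k] {𝒱 : VarClass k} {ops : CycleOps 𝒱}
    (W : WeilCohomology.{u, v} ops) (X : 𝒱.Obj) :
    ∃ U₀ : (X.prod X).V.X.Opens, SmallComplement (X.prod X) X.dim U₀ ∧
      ∀ G : SquareAction.{u, v, w} W X, (∀ g h : G.Γ, g * h = h * g) →
        List.TFAE [
          TateOpen G U₀,
          ∀ U, SmallComplement (X.prod X) X.dim U → TateOpen G U,
          TateSquare G ∧ ∀ i, SemisimpleIn G ⊤ i,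
          TateSquare G ∧ HomEqNumIn W (X.prod X) X.dim] := by
  obtain ⟨U₀, hU₀, h⟩ := open_tate_main W X
  refine ⟨U₀, hU₀, fun G hG => (h G).2.2.2 ⊥ ?_ fun i => ?_⟩
  · rw [commutator_def, Subgroup.commutator_le]
    intro g _ g' _
    rw [Subgroup.mem_bot, commutatorElement_def, hG g g', mul_assoc, mul_assoc, mul_inv_cancel_left,
      mul_inv_cancel]
  · intro M hM _
    obtain ⟨M', hM'⟩ := Submodule.exists_isCompl (M.submoduleOf (W.gr X i))
    refine ⟨M'.map (W.gr X i).subtype, Submodule.map_subtype_le _ _, ?_, ?_, ?_⟩
    · intro g hg a ha
      rw [Subgroup.mem_bot.1 hg, map_one]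
      exact ha
    · rw [eq_bot_iff]
      rintro a ⟨ha, ⟨b, hb, rfl⟩⟩
      have h1 : b ∈ M.submoduleOf (W.gr X i) ⊓ M' := ⟨ha, hb⟩
      rw [hM'.inf_eq_bot, Submodule.mem_bot] at h1
      rw [h1]
      exact Submodule.zero_mem _
    · refine le_antisymm (sup_le hM (Submodule.map_subtype_le _ _)) fun a ha => ?_
      have h1 : (⟨a, ha⟩ : W.gr X i) ∈ M.submoduleOf (W.gr X i) ⊔ M' := by
        rw [hM'.sup_eq_top]
        exact Submodule.mem_top
      obtain ⟨b, hb, c, hc, hbc⟩ := Submodule.mem_sup.1 h1
      refine Submodule.mem_sup.2 ⟨b, hb, c, ⟨c, hc, rfl⟩, ?_⟩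
      exact congrArg Subtype.val hbc

end Pool.Agent.Results.MP_81632f_ag.OpenTateSemisimplicity
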